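import Pool.Agent.H31.EH.Targets

/-!
# Row SPA (MP_e21eee_nt, board ehf, helper53): stars with good halves on grids with few stars
-/

set_option autoImplicit false

open Finset MeasureTheory

namespace Pool.Agent.H53.EH

open Pool.Agent.H24.CL Pool.Agent.H24.LV Pool.Agent.H26.ES Pool.Agent.H31.EH

/-- from a pointwise inequality of the numbers to the sums of the measures -/
theorem sum_vol {k : ℕ} (D : ℕ) (A B C : ℕ → Set (X k)) (hA : ∀ x, MeasurableSet (A x))
    (hB : ∀ x, MeasurableSet (B x)) (hC : ∀ x, MeasurableSet (C x))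
    (h : ∀ b : X k, ∑ x ∈ range D, (A x).indicator (fun _ => (1 : ℝ)) b ≤
      2 * (∑ x ∈ range D, (B x).indicator (fun _ => (1 : ℝ)) b +
        ∑ x ∈ range D, (C x).indicator (fun _ => (1 : ℝ)) b)) :
    ∑ x ∈ range D, volume.real (A x) ≤
      2 * (∑ x ∈ range D, volume.real (B x) + ∑ x ∈ range D, volume.real (C x)) := by
  have hI : ∀ E : ℕ → Set (X k), (∀ x, MeasurableSet (E x)) → ∀ x,
      Integrable ((E x).indicator (fun _ => (1 : ℝ)) : X k → ℝ) volume :=
    fun E hE x => (integrable_const (1 : ℝ)).indicator (hE x)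
  have hS : ∀ E : ℕ → Set (X k), (∀ x, MeasurableSet (E x)) →
      ∑ x ∈ range D, volume.real (E x) =
        ∫ b : X k, ∑ x ∈ range D, (E x).indicator (fun _ => (1 : ℝ)) b := by
    intro E hE
    rw [integral_finsetSum _ fun x _ => hI E hE x]
    refine sum_congr rfl fun x _ => ?_
    rw [integral_indicator (hE x), setIntegral_const, smul_eq_mul, mul_one]
  have hIS : ∀ E : ℕ → Set (X k), (∀ x, MeasurableSet (E x)) →
      Integrable (fun b : X k => ∑ x ∈ range D, (E x).indicator (fun _ => (1 : ℝ)) b) volume :=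
    fun E hE => integrable_finsetSum _ fun x _ => hI E hE x
  rw [hS A hA, hS B hB, hS C hC, ← integral_add (hIS B hB) (hIS C hC), ← integral_const_mul]
  exact integral_mono (hIS A hA) (((hIS B hB).add (hIS C hC)).const_mul 2) h

theorem sum_ind {k : ℕ} (D : ℕ) (T : X k → ℕ → Prop) (b : X k) [DecidablePred (T b)] :
    ∑ x ∈ range D, ({b : X k | T b x}).indicator (fun _ => (1 : ℝ)) b =
      (((range D).filter fun x => T b x).card : ℝ) := by
  rw [card_filter, Nat.cast_sum]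
  refine sum_congr rfl fun x _ => ?_
  by_cases h : T b x
  · rw [Set.indicator_of_mem (show b ∈ {b : X k | T b x} from h), if_pos h, Nat.cast_one]
  · rw [Set.indicator_of_notMem (show b ∉ {b : X k | T b x} from h), if_neg h, Nat.cast_zero]

theorem two_comm {k : ℕ} (S₁ S₂ : Finset ℕ) (V : Set (X k)) (Gd : ℕ → ℕ → Set (X k)) (kap : ℝ)
    (b : X k) (x : ℕ) : Two S₂ S₁ V Gd kap b x ↔ Two S₁ S₂ V Gd kap b x := and_comm

open Classical in
/-- a light column -/
theorem light_of {k : ℕ} (S₁ S₂ : Finset ℕ) (V : Set (X k)) (Gd : ℕ → ℕ → Set (X k))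
    (kap kap' : ℝ) (b : X k) (T : Finset ℕ) (h1 : 1 ≤ DS S₁)
    (hT : ∀ x, x ∈ T ↔ x < DS S₁ * DS S₂ ∧ Two S₁ S₂ V Gd kap b x) (x : ℕ) (hx : x ∈ T)
    (hc : ((T.filter fun x' => x' % DS S₁ = x % DS S₁).card : ℝ) < kap' * DS S₂) :
    Light S₁ S₂ V Gd kap kap' b x := by
  refine ⟨((hT x).1 hx).2, lt_of_le_of_lt ?_ hc⟩
  rw [Nat.cast_le]
  refine card_le_card_of_injOn (fun z => x % DS S₁ + DS S₁ * z) ?_ ?_
  · intro z hz
    rw [mem_coe, mem_filter, mem_range] at hz
    rw [mem_coe, mem_filter, hT]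
    have h2 : x % DS S₁ < DS S₁ := Nat.mod_lt _ h1
    refine ⟨⟨?_, hz.2⟩, ?_⟩
    · calc x % DS S₁ + DS S₁ * z < DS S₁ + DS S₁ * z := by omega
        _ = DS S₁ * (z + 1) := by ring
        _ ≤ DS S₁ * DS S₂ := Nat.mul_le_mul_left _ hz.1
    · rw [Nat.add_mul_mod_self_left, Nat.mod_mod]
  · intro z _ z' _ h
    have h3 : x % DS S₁ + DS S₁ * z = x % DS S₁ + DS S₁ * z' := h
    exact Nat.eq_of_mul_eq_mul_left h1 (Nat.add_left_cancel h3)

theorem spa : T_COL → T_MEA → T_FIN → T_SPA := by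
  classical
  intro hCOL hMEA hFIN k S₁ S₂ V Ge Gd P m τ Ω kap kap' hdis hdat hkap'
  have hpr : ∀ p ∈ S₁ ∪ S₂, p.Prime := fun p hp => (hdat.pr p hp).1
  have hD1 : 1 ≤ DS S₁ := by
    unfold DS
    exact Finset.prod_pos fun p hp => (hpr p (mem_union_left _ hp)).pos
  have hD2 : 1 ≤ DS S₂ := by
    unfold DS
    exact Finset.prod_pos fun p hp => (hpr p (mem_union_right _ hp)).pos
  have hDU : DS (S₁ ∪ S₂) = DS S₁ * DS S₂ := by
    unfold DS
    exact prod_union hdis
  have hcop : (DS S₁).Coprime (DS S₂) := by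
    unfold DS
    refine Nat.Coprime.prod_left fun p hp => Nat.Coprime.prod_right fun q hq => ?_
    refine (Nat.coprime_primes (hpr p (mem_union_left _ hp)) (hpr q (mem_union_right _ hq))).mpr ?_
    rintro rfl
    exact Finset.disjoint_left.1 hdis hp hq
  have hdat' : SDatP k (S₂ ∪ S₁) V Ge Gd P m τ Ω := by
    rw [union_comm]
    exact hdat
  have hdat0 : SDatP k ((S₁ ∪ S₂) ∪ ∅) V Ge Gd P m τ Ω := by
    rw [union_empty]
    exact hdat
  obtain ⟨-, -, -, hm1, hm2, -⟩ := hMEA k S₁ S₂ V Ge Gd P m τ Ω hdat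
  obtain ⟨-, -, -, -, hm3, -⟩ := hMEA k S₂ S₁ V Ge Gd P m τ Ω hdat'
  obtain ⟨-, hm4, -⟩ := hMEA k (S₁ ∪ S₂) ∅ V Ge Gd P m τ Ω hdat0
  have hstar := (hCOL k S₁ S₂ V Ge Gd P m τ Ω hdis hdat).1
  have hmA : ∀ x, MeasurableSet {b : X k | Two S₁ S₂ V Gd kap b x ∧
      den (S₁ ∪ S₂) V Gd b < kap' ^ 2 / 2} := fun x =>
    (hm1 kap x).inter (measurableSet_lt hm4 measurable_const)
  have key := sum_vol (DS (S₁ ∪ S₂)) (fun x => {b : X k | Two S₁ S₂ V Gd kap b x ∧
      den (S₁ ∪ S₂) V Gd b < kap' ^ 2 / 2}) (fun x => {b : X k | Light S₁ S₂ V Gd kap kap' b x})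
      (fun x => {b : X k | Light S₂ S₁ V Gd kap kap' b x}) hmA (hm2 kap kap') (hm3 kap kap') ?_
  · unfold mass
    rw [union_comm S₂ S₁]
    have h0 : (0 : ℝ) ≤ (DS (S₁ ∪ S₂) : ℝ) ^ (KN k - k) * (1 / (DS (S₁ ∪ S₂) : ℝ)) := by positivity
    calc _ = (DS (S₁ ∪ S₂) : ℝ) ^ (KN k - k) * (1 / (DS (S₁ ∪ S₂) : ℝ)) *
          ∑ x ∈ range (DS (S₁ ∪ S₂)), volume.real {b : X k | Two S₁ S₂ V Gd kap b x ∧
            den (S₁ ∪ S₂) V Gd b < kap' ^ 2 / 2} := by ring
      _ ≤ _ := mul_le_mul_of_nonneg_left key h0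
      _ = _ := by ring
  · intro b
    rw [sum_ind, sum_ind, sum_ind]
    by_cases hden : den (S₁ ∪ S₂) V Gd b < kap' ^ 2 / 2
    swap
    · have h0 : ((range (DS (S₁ ∪ S₂))).filter fun x => Two S₁ S₂ V Gd kap b x ∧
          den (S₁ ∪ S₂) V Gd b < kap' ^ 2 / 2) = ∅ :=
        filter_eq_empty_iff.2 fun x _ h => hden h.2
      rw [h0, card_empty, Nat.cast_zero]
      positivity
    · obtain ⟨T, hTdef⟩ : ∃ T : Finset ℕ, T = (range (DS S₁ * DS S₂)).filter fun x =>
        Two S₁ S₂ V Gd kap b x := ⟨_, rfl⟩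
      have hT : ∀ x, x ∈ T ↔ x < DS S₁ * DS S₂ ∧ Two S₁ S₂ V Gd kap b x := by
        intro x
        rw [hTdef, mem_filter, mem_range]
      have hTc : (T.card : ℝ) ≤ kap' ^ 2 / 2 * (DS S₁ * DS S₂) := by
        have h1 : T ⊆ (range (DS (S₁ ∪ S₂))).filter fun x => StarP (S₁ ∪ S₂) V Gd b x := by
          intro x hx
          rw [hT] at hx
          rw [mem_filter, mem_range, hDU]
          exact ⟨hx.1, (hstar x b).2 ⟨hx.2.1.1, hx.2.2.1⟩⟩
        have h2 : (T.card : ℝ) ≤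
            (((range (DS (S₁ ∪ S₂))).filter fun x => StarP (S₁ ∪ S₂) V Gd b x).card : ℝ) := by
          exact_mod_cast card_le_card h1
        have h3 : (0 : ℝ) < (DS (S₁ ∪ S₂) : ℝ) := by
          rw [hDU]
          exact_mod_cast Nat.mul_pos hD1 hD2
        have h4 : (((range (DS (S₁ ∪ S₂))).filter fun x => StarP (S₁ ∪ S₂) V Gd b x).card : ℝ) =
            den (S₁ ∪ S₂) V Gd b * DS (S₁ ∪ S₂) := by
          unfold den
          rw [div_mul_cancel₀ _ h3.ne']
        rw [h4] at h2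
        refine h2.trans ((mul_le_mul_of_nonneg_right hden.le h3.le).trans (le_of_eq ?_))
        rw [hDU, Nat.cast_mul]
      have hfin := hFIN (DS S₁) (DS S₂) T kap' hD1 hD2 hcop (by
        intro x hx
        rw [mem_range]
        exact ((hT x).1 hx).1) hkap' hTc
      have e1 : ((range (DS (S₁ ∪ S₂))).filter fun x => Two S₁ S₂ V Gd kap b x ∧
          den (S₁ ∪ S₂) V Gd b < kap' ^ 2 / 2) ⊆ T := by
        intro x hx
        rw [mem_filter, mem_range, hDU] at hx
        rw [hT]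
        exact ⟨hx.1, hx.2.1⟩
      have e2 : (T.filter fun x =>
          ((T.filter fun x' => x' % DS S₁ = x % DS S₁).card : ℝ) < kap' * DS S₂) ⊆
          (range (DS (S₁ ∪ S₂))).filter fun x => Light S₁ S₂ V Gd kap kap' b x := by
        intro x hx
        rw [mem_filter] at hx
        rw [mem_filter, mem_range, hDU]
        exact ⟨((hT x).1 hx.1).1, light_of S₁ S₂ V Gd kap kap' b T hD1 hT x hx.1 hx.2⟩
      have hT' : ∀ x, x ∈ T ↔ x < DS S₂ * DS S₁ ∧ Two S₂ S₁ V Gd kap b x := by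
        intro x
        rw [hT, Nat.mul_comm (DS S₂) (DS S₁), two_comm]
      have e3 : (T.filter fun x =>
          ((T.filter fun x' => x' % DS S₂ = x % DS S₂).card : ℝ) < kap' * DS S₁) ⊆
          (range (DS (S₁ ∪ S₂))).filter fun x => Light S₂ S₁ V Gd kap kap' b x := by
        intro x hx
        rw [mem_filter] at hx
        rw [mem_filter, mem_range, hDU]
        exact ⟨((hT x).1 hx.1).1, light_of S₂ S₁ V Gd kap kap' b T hD2 hT' x hx.1 hx.2⟩
      have c1 : ((((range (DS (S₁ ∪ S₂))).filter fun x => Two S₁ S₂ V Gd kap b x ∧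
          den (S₁ ∪ S₂) V Gd b < kap' ^ 2 / 2).card : ℕ) : ℝ) ≤ T.card := by
        exact_mod_cast card_le_card e1
      have c2 : (((T.filter fun x =>
          ((T.filter fun x' => x' % DS S₁ = x % DS S₁).card : ℝ) < kap' * DS S₂).card : ℕ) : ℝ) ≤
          (((range (DS (S₁ ∪ S₂))).filter fun x => Light S₁ S₂ V Gd kap kap' b x).card : ℝ) := by
        exact_mod_cast card_le_card e2
      have c3 : (((T.filter fun x =>
          ((T.filter fun x' => x' % DS S₂ = x % DS S₂).card : ℝ) < kap' * DS S₁).card : ℕ) : ℝ) ≤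
          (((range (DS (S₁ ∪ S₂))).filter fun x => Light S₂ S₁ V Gd kap kap' b x).card : ℝ) := by
        exact_mod_cast card_le_card e3
      linarith

theorem pf_SPA : T_MP → T_COL → T_MEA → T_FIN → T_SPA := fun _ => spa

end Pool.Agent.H53.EH
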